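import Pool.Agent.TDV.Stmts
import Pool.Agent.Helper56_TB.Sets

/-!
PDS: the decidable approximation of the events.
-/

set_option autoImplicit false

namespace Pool.Agent.TDV.H76

open Pool.Agent.TDV Pool.Agent.Helper25TD

theorem primrec_Pd (h : VlmStmt) : Primrec fun q : List Bool × List Bool => Pd q.1 q.2 := by
  obtain ⟨-, -, -, -, -, -, hvl, -, hcol, -⟩ := h
  have hlen : Primrec fun q : List Bool × List Bool => q.1.length :=
    Primrec.list_length.comp Primrec.fst
  have hun : Primrec fun q : List Bool × List Bool => Nat.unpair q.2.length :=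
    Primrec.unpair.comp (Primrec.list_length.comp Primrec.snd)
  have h1 : Primrec fun q : List Bool × List Bool => decide (q.1.length ≠ 0) := by
    have : PrimrecPred fun q : List Bool × List Bool => ¬ q.1.length = 0 :=
      (Primrec.eq.comp hlen (Primrec.const 0)).not
    exact this.decide
  have hcode : Primrec fun q : List Bool × List Bool =>
      Denumerable.ofNat Nat.Partrec.Code (vl q.1.length) :=
    (Primrec.ofNat _).comp (hvl.comp hlen)
  have harg : Primrec fun q : List Bool × List Bool =>
      Encodable.encode (colp q.1, q.2.take (Nat.unpair q.2.length).2) :=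
    Primrec.encode.comp ((hcol.comp Primrec.fst).pair
      (Primrec.list_take.comp (Primrec.snd.comp hun) Primrec.snd))
  have hev : Primrec fun q : List Bool × List Bool =>
      Nat.Partrec.Code.evaln (Nat.unpair q.2.length).1
        (Denumerable.ofNat Nat.Partrec.Code (vl q.1.length))
        (Encodable.encode (colp q.1, q.2.take (Nat.unpair q.2.length).2)) :=
    Nat.Partrec.Code.primrec_evaln.comp (((Primrec.fst.comp hun).pair hcode).pair harg)
  have h2 : Primrec fun q : List Bool × List Bool =>
      decide (Nat.Partrec.Code.evaln (Nat.unpair q.2.length).1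
        (Denumerable.ofNat Nat.Partrec.Code (vl q.1.length))
        (Encodable.encode (colp q.1, q.2.take (Nat.unpair q.2.length).2)) = some 1) := by
    have : PrimrecPred fun q : List Bool × List Bool =>
        Nat.Partrec.Code.evaln (Nat.unpair q.2.length).1
        (Denumerable.ofNat Nat.Partrec.Code (vl q.1.length))
        (Encodable.encode (colp q.1, q.2.take (Nat.unpair q.2.length).2)) = some 1 :=
      Primrec.eq.comp hev (Primrec.const _)
    exact this.decide
  exact Primrec.and.comp h1 h2

theorem pds (h : VlmStmt) : PdsStmt := by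
  refine ⟨primrec_Pd h, ?_⟩
  intro p y
  constructor
  · rintro ⟨N, hN⟩
    by_cases hp : p.length = 0
    · rw [QU, if_pos hp] at hN
      exact absurd hN (Part.notMem_none _)
    · rw [QU, if_neg hp] at hN
      obtain ⟨j, hj⟩ := Nat.Partrec.Code.evaln_complete.mp hN
      refine ⟨Nat.pair j N, ?_⟩
      have hN' : N ≤ Nat.pair j N := Nat.right_le_pair j N
      rw [Pd, Pool.Agent.Helper56TB.length_pre, Nat.unpair_pair,
        Pool.Agent.Helper56TB.take_pre y hN', Bool.and_eq_true, decide_eq_true_eq,
        decide_eq_true_eq]
      exact ⟨hp, hj⟩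
  · rintro ⟨M, hM⟩
    rw [Pd, Pool.Agent.Helper56TB.length_pre, Bool.and_eq_true, decide_eq_true_eq,
        decide_eq_true_eq, Pool.Agent.Helper56TB.take_pre y (Nat.unpair_right_le M)] at hM
    refine ⟨(Nat.unpair M).2, ?_⟩
    rw [QU, if_neg hM.1]
    exact Nat.Partrec.Code.evaln_sound hM.2

end Pool.Agent.TDV.H76
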